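import Pool.Agent.N659.HB.Stm

/-!
Project HB of helper659: Walsh expansion over signs.
-/

namespace Pool.Agent.N564.HB.CHW

open Finset Pool.Agent.N659.HB

set_option linter.all false

/-- the character of the set `S` -/
def chi {Λ : Type} (S : Finset Λ) (ξ : Λ → Bool) : ℂ := ∏ x ∈ S, sg (ξ x)

theorem sg_mul (b : Bool) : sg b * sg b = 1 := by cases b <;> simp [sg]

theorem sg_conj (b : Bool) : (starRingEnd ℂ) (sg b) = sg b := by cases b <;> simp [sg]

variable {Λ : Type} [Fintype Λ] [DecidableEq Λ]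

theorem chi_eq (S : Finset Λ) (ξ : Λ → Bool) : chi S ξ = ∏ x, if x ∈ S then sg (ξ x) else 1 := by
  rw [chi, Finset.prod_ite_mem, Finset.univ_inter]

theorem chi_mul (S S' : Finset Λ) (ξ : Λ → Bool) : chi S ξ * chi S' ξ = chi (symmDiff S S') ξ := by
  rw [chi_eq, chi_eq, chi_eq, ← Finset.prod_mul_distrib]
  refine Finset.prod_congr rfl fun x _ => ?_
  by_cases h1 : x ∈ S <;> by_cases h2 : x ∈ S' <;> simp [h1, h2, Finset.mem_symmDiff, sg_mul]

theorem chi_single (y : Λ) (ξ : Λ → Bool) : chi {y} ξ = sg (ξ y) := by simp [chi]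

theorem chi_conj (S : Finset Λ) (ξ : Λ → Bool) : (starRingEnd ℂ) (chi S ξ) = chi S ξ := by
  rw [chi, map_prod]
  exact Finset.prod_congr rfl fun x _ => sg_conj _

theorem chi_sum (U : Finset Λ) :
    ∑ ξ : Λ → Bool, chi U ξ = if U = ∅ then (2 : ℂ) ^ Fintype.card Λ else 0 := by
  have h : ∑ ξ : Λ → Bool, chi U ξ = ∏ x : Λ, ∑ b : Bool, (if x ∈ U then sg b else 1) := by
    rw [Finset.prod_univ_sum, Fintype.piFinset_univ]
    exact Finset.sum_congr rfl fun ξ _ => chi_eq U ξ
  rw [h]
  split_ifs with hU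
  · subst hU
    simp [Finset.prod_const]
  · obtain ⟨x, hx⟩ := Finset.nonempty_iff_ne_empty.mpr hU
    refine Finset.prod_eq_zero (Finset.mem_univ x) ?_
    simp [hx, sg]

theorem expand (T : Λ → Λ → ℂ) (f : Λ → ℂ) (ξ : Λ → Bool) (k : ℕ) :
    ∀ y, xk T f ξ k y = ∑ S : Finset Λ, gc T f k y S * chi S ξ := by
  induction k with
  | zero =>
    intro y
    simp only [xk, gc, ite_mul, zero_mul, Finset.sum_ite_eq', Finset.mem_univ, if_true, chi_single]
    ring
  | succ k ih =>
    intro y
    have h1 : ∑ S : Finset Λ, gc T f (k + 1) y S * chi S ξ =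
        ∑ S : Finset Λ, gc T f (k + 1) y (symmDiff S {y}) * chi (symmDiff S {y}) ξ := by
      refine (Equiv.sum_comp (Function.Involutive.toPerm (fun S : Finset Λ => symmDiff S {y})
        (fun S => symmDiff_symmDiff_cancel_right _ _)) _).symm
    rw [h1]
    simp only [xk, gc, symmDiff_symmDiff_cancel_right, ← chi_mul, chi_single, ih]
    simp only [Finset.mul_sum, Finset.sum_mul]
    rw [Finset.sum_comm]
    refine Finset.sum_congr rfl fun S _ => Finset.sum_congr rfl fun y' _ => ?_
    ring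

theorem main : S_CHW := by
  intro Λ _ _ T f k y
  have h2 : (2 : ℂ) ^ Fintype.card Λ ≠ 0 := pow_ne_zero _ two_ne_zero
  constructor
  · have key : ∑ ξ : Λ → Bool, ((‖xk T f ξ k y‖ : ℂ)) ^ 2 =
        2 ^ Fintype.card Λ * ∑ S : Finset Λ, ((‖gc T f k y S‖ : ℂ)) ^ 2 := by
      have e1 : ∀ ξ : Λ → Bool, ((‖xk T f ξ k y‖ : ℂ)) ^ 2 = ∑ S : Finset Λ, ∑ S' : Finset Λ,
          gc T f k y S * (starRingEnd ℂ) (gc T f k y S') * chi (symmDiff S S') ξ := by
        intro ξ
        rw [← Complex.mul_conj', expand, map_sum, Finset.sum_mul_sum]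
        refine Finset.sum_congr rfl fun S _ => Finset.sum_congr rfl fun S' _ => ?_
        rw [map_mul, chi_conj, ← chi_mul]
        ring
      rw [Finset.sum_congr rfl fun ξ _ => e1 ξ, Finset.sum_comm, Finset.mul_sum]
      refine Finset.sum_congr rfl fun S _ => ?_
      rw [Finset.sum_comm]
      have e2 : ∀ S' : Finset Λ, ∑ ξ : Λ → Bool,
          gc T f k y S * (starRingEnd ℂ) (gc T f k y S') * chi (symmDiff S S') ξ =
          if S = S' then gc T f k y S * (starRingEnd ℂ) (gc T f k y S') * 2 ^ Fintype.card Λ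
          else 0 := by
        intro S'
        rw [← Finset.mul_sum, chi_sum]
        have e3 : symmDiff S S' = ∅ ↔ S = S' := by
          rw [← Finset.bot_eq_empty, symmDiff_eq_bot]
        simp only [e3, mul_ite, mul_zero]
      rw [Finset.sum_congr rfl fun S' _ => e2 S', Finset.sum_ite_eq, if_pos (Finset.mem_univ _),
        Complex.mul_conj']
      ring
    have h3 : (2 : ℝ) ^ Fintype.card Λ ≠ 0 := by positivity
    rw [div_eq_iff h3]
    apply Complex.ofReal_injective
    push_cast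
    rw [key]
    ring
  · rw [div_eq_iff h2, Finset.sum_congr rfl fun ξ _ => expand T f ξ k y, Finset.sum_comm]
    have e1 : ∀ S : Finset Λ, ∑ ξ : Λ → Bool, gc T f k y S * chi S ξ =
        if S = ∅ then gc T f k y S * 2 ^ Fintype.card Λ else 0 := by
      intro S
      rw [← Finset.mul_sum, chi_sum]
      simp only [mul_ite, mul_zero]
    rw [Finset.sum_congr rfl fun S _ => e1 S, Finset.sum_ite_eq', if_pos (Finset.mem_univ _)]

end Pool.Agent.N564.HB.CHW
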