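import Pool.Agent.N89.HB.Stm

set_option autoImplicit false

/-!
# Interpolation descent
-/

namespace Pool.Agent.N564.HB

open Pool.Agent.N89.HB

theorem main : S_INT := by
  intro E F _ _ _ _ g h
  have hF : CharZero F := charZero_of_injective_algebraMap (algebraMap E F).injective
  choose r hr using h
  have hinjE : Set.InjOn (fun n : ℕ => (n : E)) (Finset.range (g.natDegree + 1) : Set ℕ) :=
    fun a _ b _ hab => Nat.cast_injective hab
  have hinjF : Set.InjOn (fun n : ℕ => (n : F)) (Finset.range (g.natDegree + 1) : Set ℕ) :=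
    fun a _ b _ hab => Nat.cast_injective hab
  refine ⟨Lagrange.interpolate (Finset.range (g.natDegree + 1)) (fun n : ℕ => (n : E)) r, ?_⟩
  apply Polynomial.eq_of_degrees_lt_of_eval_index_eq (Finset.range (g.natDegree + 1)) hinjF
  · refine lt_of_le_of_lt Polynomial.degree_map_le ?_
    exact Lagrange.degree_interpolate_lt r hinjE
  · rw [Finset.card_range]
    exact lt_of_le_of_lt Polynomial.degree_le_natDegree (by exact_mod_cast Nat.lt_succ_self _)
  · intro n hn
    have h1 : ((n : ℕ) : F) = algebraMap E F (n : E) := (map_natCast _ n).symm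
    show Polynomial.eval ((n : ℕ) : F) _ = Polynomial.eval ((n : ℕ) : F) g
    rw [h1, Polynomial.eval_map_apply, Lagrange.eval_interpolate_at_node r hinjE hn, hr, h1]

end Pool.Agent.N564.HB
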